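import Pool.Agent.helper71.FT.Spec

/-!
# MP_07c750, project FT, row `ft:FTK` (the theorem: orbits which visit an open set with small frequency)
-/

open scoped MatrixGroups ContDiff Topology UpperHalfPlane ComplexConjugate
open UpperHalfPlane MeasureTheory Filter Set

set_option autoImplicit false

namespace Pool.Agent.FT

open Pool.Agent.RS
open Pool.Agent.MS (bq BB BA SF pf)
open Pool.Agent.EN (XG MG mkX mkM fl pr)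
open Pool.Agent.FS (tp)

/-- from all `d` to the limit -/
theorem FTK_lim {X : Type} [MeasurableSpace X] (μ : Measure X) [IsProbabilityMeasure μ] (S : Set X)
    (h : ∀ d : ℝ, 0 < d → μ S ≤ ENNReal.ofReal (1 / 2 + d)) : μ S ≤ 1 / 2 := by
  have hfin : μ S ≠ ⊤ := measure_ne_top μ S
  have h6 : μ S = ENNReal.ofReal (μ.real S) := (ENNReal.ofReal_toReal hfin).symm
  have h1 : μ.real S ≤ 1 / 2 := by
    refine le_of_forall_pos_le_add fun d hd => ?_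
    have h2 := h d hd
    rw [h6] at h2
    exact (ENNReal.ofReal_le_ofReal_iff (by positivity)).1 h2
  rw [h6]
  refine (ENNReal.ofReal_le_ofReal h1).trans (le_of_eq ?_)
  rw [ENNReal.ofReal_div_of_pos (by norm_num), ENNReal.ofReal_one]
  norm_num

/-- the two functions of GP are the same -/
theorem FTK_one (Γ : Subgroup SL(2, ℝ)) (μ : Measure (XG Γ)) (K c C3 e d : ℝ) (hK : 1 ≤ K) (hGP : IR.GP Γ μ K)
    (hC : 1 ≤ C3) (hd : 0 < d) (hd1 : d ≤ 1)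
    (hL : ∀ κ0 Q : ℝ, 0 < κ0 → κ0 ≤ 1 → 0 < Q → ∃ n0 : ℕ, ∀ (n : ℕ) (Ψ Ψa Ψn Ψl Ψ' Ψa' Ψn' Ψl' : SL(2, ℝ) → ℝ) (εc : ℝ), n0 ≤ n →
      PG Γ c C3 e n Ψ Ψa Ψn Ψl → PG Γ c C3 e n Ψ' Ψa' Ψn' Ψl' → εc = κ0 * Real.exp (-(n : ℝ)) → IR.LFC Ψ Ψ' n εc (εc / 100) Q) :
    ∃ n0 : ℕ, ∀ (n : ℕ) (Ψ Ψa Ψn Ψl : SL(2, ℝ) → ℝ), n0 ≤ n → PG Γ c C3 e n Ψ Ψa Ψn Ψl → 2 * μ.real (IR.one Γ Ψ) ≤ 1 + d := by
  have hδ0 : 0 < (d / 200) ^ 2 := by positivity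
  have hδ1 : (d / 200) ^ 2 ≤ 1 := by nlinarith
  obtain ⟨δ, hδ⟩ : ∃ δ : ℝ, δ = (d / 200) ^ 2 := ⟨_, rfl⟩
  rw [← hδ] at hδ0 hδ1
  obtain ⟨κ0, hκ⟩ : ∃ κ0 : ℝ, κ0 = Real.pi * δ / (8 * K * C3) := ⟨_, rfl⟩
  have hK0 : 0 < K := by linarith
  have hC0 : 0 < C3 := by linarith
  have hκ0 : 0 < κ0 := by rw [hκ]; positivity
  have hκ1 : κ0 ≤ 1 := by
    rw [hκ, div_le_one (by positivity)]
    have hp : Real.pi ≤ 4 := Real.pi_le_four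
    have hKC : 1 ≤ K * C3 := one_le_mul_of_one_le_of_one_le hK hC
    nlinarith [Real.pi_pos]
  obtain ⟨n0, Hn⟩ := hL κ0 (δ ^ 2 / 128) hκ0 hκ1 (by positivity)
  refine ⟨n0, fun n Ψ Ψa Ψn Ψl hn hP => ?_⟩
  have hE : 0 < Real.exp (n : ℝ) := Real.exp_pos _
  have hE1 : 1 ≤ Real.exp (n : ℝ) := Real.one_le_exp (by positivity)
  have hεc : Real.pi / (4 * (2 * K * (C3 * Real.exp n) / δ)) = κ0 * Real.exp (-(n : ℝ)) := by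
    rw [hκ, Real.exp_neg]
    field_simp
    ring
  have hLn := Hn n Ψ Ψa Ψn Ψl Ψ Ψa Ψn Ψl (κ0 * Real.exp (-(n : ℝ))) hn hP hP rfl
  have hG := hGP d C3 δ (2 * K * (C3 * Real.exp n) / δ) (κ0 * Real.exp (-(n : ℝ))) (C3 * Real.exp n) (κ0 * Real.exp (-(n : ℝ)) / 100) n
    Ψ Ψa Ψn Ψl Ψ Ψa Ψn Ψl hd hd1 hC hδ0 hδ.le rfl hεc.symm (by positivity) hP.sf hP.sf hP.nn hP.nn hP.bn hP.bl
    (fun g => (hP.bn g).trans (le_mul_of_one_le_right hC0.le hE1)) hP.bl hLn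
  linarith

theorem FTK_proof (hPGK : PGK_stmt) (hLGP : LGP_stmt) : FTK_stmt := by
  intro Γ hΓ N O hO
  obtain ⟨c, C3, hc, hc1, hC, H⟩ := hPGK Γ hΓ N O hO
  obtain ⟨e, he, hL⟩ := hLGP Γ c C3 hc hc1 hC
  obtain ⟨θ, n1, hθ, Hθ⟩ := H e he
  refine ⟨θ, hθ, fun μ K hμ hK hGP => ?_⟩
  have key : ∀ d : ℝ, 0 < d → ∃ n0 : ℕ, ∀ n : ℕ, n0 ≤ n →
      μ {x : XG Γ | ∃ i < N, volume.real {t : ℝ | t ∈ Icc (0 : ℝ) n ∧ fl Γ t x ∈ O i} ≤ θ * n} ≤ ENNReal.ofReal (1 / 2 + d) := by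
    intro d hd
    have hd2 : 0 < min d 1 := lt_min hd one_pos
    obtain ⟨n0, Hn⟩ := FTK_one Γ μ K c C3 e (min d 1) hK hGP hC hd2 (min_le_right _ _) hL
    refine ⟨max n0 n1, fun n hn => ?_⟩
    obtain ⟨Ψ, Ψa, Ψn, Ψl, hP, hx⟩ := Hθ n (le_trans (le_max_right _ _) hn)
    have h1 := Hn n Ψ Ψa Ψn Ψl (le_trans (le_max_left _ _) hn) hP
    have hsub : {x : XG Γ | ∃ i < N, volume.real {t : ℝ | t ∈ Icc (0 : ℝ) n ∧ fl Γ t x ∈ O i} ≤ θ * n} ⊆ IR.one Γ Ψ :=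
      fun x hxS => hx x hxS
    have h2 := measure_mono (μ := μ) hsub
    have hfin : μ (IR.one Γ Ψ) ≠ ⊤ := measure_ne_top μ _
    have h3 : μ (IR.one Γ Ψ) = ENNReal.ofReal (μ.real (IR.one Γ Ψ)) := (ENNReal.ofReal_toReal hfin).symm
    refine h2.trans ?_
    rw [h3]
    refine ENNReal.ofReal_le_ofReal ?_
    have h4 : min d 1 ≤ d := min_le_left _ _
    linarith
  refine ⟨key, ?_⟩
  let A : ℕ → Set (XG Γ) := fun M => {x : XG Γ | ∃ i < N, ∀ n : ℕ, M ≤ n →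
    volume.real {t : ℝ | t ∈ Icc (0 : ℝ) n ∧ fl Γ t x ∈ O i} ≤ θ * n}
  have hA : Monotone A := by
    intro M M' hM x hx
    obtain ⟨i, hi, hx⟩ := hx
    exact ⟨i, hi, fun n hn => hx n (le_trans hM hn)⟩
  have hAm : ∀ M, μ (A M) ≤ 1 / 2 := by
    intro M
    refine FTK_lim μ (A M) fun d hd => ?_
    obtain ⟨n0, Hn⟩ := key d hd
    refine (measure_mono ?_).trans (Hn (max n0 M) (le_max_left _ _))
    rintro x ⟨i, hi, hx⟩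
    exact ⟨i, hi, hx (max n0 M) (le_max_right _ _)⟩
  have hsub : {x : XG Γ | ∃ i < N, ∀ᶠ n : ℕ in atTop, volume.real {t : ℝ | t ∈ Icc (0 : ℝ) n ∧ fl Γ t x ∈ O i} ≤ θ * n} ⊆ ⋃ M, A M := by
    rintro x ⟨i, hi, hx⟩
    obtain ⟨M, hM⟩ := eventually_atTop.1 hx
    exact mem_iUnion.2 ⟨M, i, hi, hM⟩
  refine (measure_mono hsub).trans ?_
  rw [hA.measure_iUnion]
  exact iSup_le hAm

end Pool.Agent.FT
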